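import Mathlib
import Pool.Agent.U974.TW.FldP

/-! # Configurations with primes which are one modulo eight and a pair of auxiliary primes five modulo eight -/

set_option autoImplicit false

namespace Pool.Agent.U974.AW

open Finset
open Pool.Agent.Y703.CQ (nr)
open Pool.Agent.R413.SQ.BOX (nr_self nr_symm)
open Pool.Agent.U974.TW

open scoped Classical

/-- an auxiliary prime -/
theorem exists_r8 (M B : ℕ) (hM : 0 < M) (h2 : M.Coprime 2) (h7 : M.Coprime 7) :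
    ∃ r : ℕ, r.Prime ∧ B < r ∧ r ≡ 1 [MOD M] ∧ r % 8 = 5 ∧ r % 7 = 3 := by
  have h56 : M.Coprime 56 := by
    have e : (56 : ℕ) = 2 ^ 3 * 7 := by norm_num
    rw [e]
    exact Nat.Coprime.mul_right (Nat.Coprime.pow_right 3 h2) h7
  obtain ⟨a, ha1, ha2⟩ := Nat.chineseRemainder h56 1 45
  have hcop : a.Coprime (M * 56) := by
    refine Nat.Coprime.mul_right (coprime_of_modEq_one ha1) ?_
    rw [Nat.Coprime, ha2.gcd_eq]
    norm_num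
  obtain ⟨p, hp1, hp2, hp3⟩ := Nat.forall_exists_prime_gt_and_modEq B (q := M * 56) (a := a)
    (by positivity) hcop
  have h3 : p ≡ 45 [MOD 56] := (hp3.of_dvd (Nat.dvd_mul_left 56 M)).trans ha2
  have h4 : p % 56 = 45 := h3
  exact ⟨p, hp2, hp1, (hp3.of_dvd (Nat.dvd_mul_right M 56)).trans ha1, by omega, by omega⟩

/-- the primes of the class: one modulo eight and split, or five modulo eight and inert -/
def Cl (p : ℕ) : Prop := p.Prime ∧ ((p % 8 = 1 ∧ (p % 7 = 1 ∨ p % 7 = 2 ∨ p % 7 = 4)) ∨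
  (p % 8 = 5 ∧ (p % 7 = 3 ∨ p % 7 = 5 ∨ p % 7 = 6)))

theorem Cl.four {p : ℕ} (h : Cl p) : p.Prime ∧ p % 4 = 1 := by
  refine ⟨h.1, ?_⟩
  rcases h.2 with h1 | h1 <;> omega

theorem cop_of {T : Finset ℕ} (hT : ∀ q ∈ T, Cl q) :
    (∏ q ∈ T, q).Coprime 2 ∧ (∏ q ∈ T, q).Coprime 7 ∧ 0 < ∏ q ∈ T, q := by
  refine ⟨Nat.Coprime.prod_left fun q hq => ?_, Nat.Coprime.prod_left fun q hq => ?_,
    Finset.prod_pos fun q hq => (hT q hq).1.pos⟩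
  · refine (Nat.coprime_primes (hT q hq).1 Nat.prime_two).2 ?_
    rintro rfl
    have := (hT 2 hq).four.2
    omega
  · refine (Nat.coprime_primes (hT q hq).1 (by norm_num)).2 ?_
    rintro rfl
    have := (hT 7 hq).four.2
    omega

/-- the auxiliary data -/
theorem exists_aux8 (N : ℕ) (hN : 0 < N) (h7 : N.Coprime 7) (T : Finset ℕ) (hT : ∀ q ∈ T, Cl q) :
    ∃ q₁ r c₀ : ℕ, q₁.Prime ∧ q₁ % 8 = 5 ∧ q₁ % 7 = 3 ∧ q₁ ∉ T ∧ (∀ q ∈ T, q₁ ≡ 1 [MOD q]) ∧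
      r.Prime ∧ r % 8 = 5 ∧ r % 7 = 3 ∧
      c₀.Coprime (7 * (8 * N * ∏ q ∈ insert q₁ T, q) * r) ∧
      ∀ (m : ℕ) (G : SimpleGraph (Fin m)) (c : ZMod 2) (h : Fin m → ℕ) (n : ℕ), StrictMono h →
        (∀ i, (n + h i).Prime ∧ n + h i ≡ c₀ [MOD 7 * (8 * N * ∏ q ∈ insert q₁ T, q) * r] ∧
          Pool.Agent.Y698.SG.n4 (n + h i) = c) →
        (∀ i j, i < j → jacobiSym ((n + h j : ℕ) : ℤ) (n + h i) = sgn G i j) →
        CfgF G (fun i => n + h i) c (insert q₁ T) r ∧ ∀ i, n + h i ≡ 1 [MOD 56 * N] := by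
  obtain ⟨a2, a7, a0⟩ := cop_of hT
  obtain ⟨q₁, hq, hq1, hq2, hq3, hq4⟩ := exists_r8 (∏ q ∈ T, q) (∏ q ∈ T, q) a0 a2 a7
  have hqT : q₁ ∉ T := by
    intro h1
    have := Nat.le_of_dvd a0 (Finset.dvd_prod_of_mem (fun q => q) h1)
    omega
  have hq5 : ∀ q ∈ T, q₁ ≡ 1 [MOD q] := fun q hq' => hq2.of_dvd (Finset.dvd_prod_of_mem _ hq')
  have hcl : Cl q₁ := ⟨hq, Or.inr ⟨hq3, Or.inl hq4⟩⟩
  set T' := insert q₁ T with hT'
  have hTc : ∀ q ∈ T', Cl q := by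
    intro q hq'
    rcases Finset.mem_insert.1 hq' with rfl | h1
    · exact hcl
    · exact hT q h1
  obtain ⟨b2, b7, b0⟩ := cop_of hTc
  obtain ⟨r, hr, hr1, hr2, hr3, hr4⟩ := exists_r8 (∏ q ∈ T', q) (7 * (8 * N * ∏ q ∈ T', q)) b0 b2 b7
  have hT4 : ∀ q ∈ T', q.Prime ∧ q % 4 = 1 := fun q hq' => (hTc q hq').four
  have hM : 0 < 8 * N * ∏ q ∈ T', q := by positivity
  have hrq : ∀ q ∈ T', r ≡ 1 [MOD q] := fun q hq' => hr2.of_dvd (Finset.dvd_prod_of_mem _ hq')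
  have hrT : r ∉ T' := by
    intro h1
    have h2 := Nat.le_of_dvd b0 (Finset.dvd_prod_of_mem (fun q => q) h1)
    have h3 : ∏ q ∈ T', q ≤ 7 * (8 * N * ∏ q ∈ T', q) := by nlinarith
    omega
  have hcop : (7 * (8 * N * ∏ q ∈ T', q)).Coprime r := by
    rw [Nat.coprime_comm, Nat.Prime.coprime_iff_not_dvd hr]
    intro h1
    have := Nat.le_of_dvd (by positivity) h1
    omega
  obtain ⟨c₀, hc1, hc2, hc3⟩ := exists_class _ r hr (by omega) hcop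
  refine ⟨q₁, r, c₀, hq, hq3, hq4, hqT, hq5, hr, hr3, hr4, hc3, fun m G c h n hh hn hsym => ?_⟩
  have hmod : ∀ i, n + h i ≡ 1 [MOD 7 * (8 * N * ∏ q ∈ T', q)] := fun i =>
    ((hn i).2.1.of_dvd (Nat.dvd_mul_right _ _)).trans hc1
  have hmr : ∀ i, n + h i ≡ c₀ [MOD r] := fun i => (hn i).2.1.of_dvd (Nat.dvd_mul_left _ _)
  have hpr : ∀ i, (n + h i).Prime := fun i => (hn i).1
  have hinj : Function.Injective (fun i => n + h i) :=
    fun i j hij => hh.injective (Nat.add_left_cancel hij)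
  have hf4 : ∀ i, (n + h i) % 4 = 1 := fun i =>
    (hmod i).of_dvd (Dvd.intro (7 * 2 * N * ∏ q ∈ T', q) (by ring))
  have hf7 : ∀ i, (n + h i) % 7 = 1 := fun i => (hmod i).of_dvd (Nat.dvd_mul_right _ _)
  have hfq : ∀ i, ∀ q ∈ T', n + h i ≡ 1 [MOD q] := fun i q hq =>
    (hmod i).of_dvd ((Finset.dvd_prod_of_mem _ hq).trans
      ((Nat.dvd_mul_left _ (8 * N)).trans (Nat.dvd_mul_left _ 7)))
  have hfr : ∀ i, nr r (n + h i) = 1 := fun i => nr_eq_one_of (hmr i) hc2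
  have hlt : ∀ i j, i < j → nr (n + h i) (n + h j) = if G.Adj i j then 1 else 0 := fun i j hij =>
    nr_of_jac (hpr i) (hpr j) (fun h4 => hij.ne (hinj h4)) (hsym i j hij)
  refine ⟨⟨hinj, hpr, hf4, fun i => ?_, fun i j => ?_, fun i => (hn i).2.2, hT4, ⟨hr, by omega⟩, ?_, hrT,
    fun i hi => ?_, fun i hi => ?_, fun i q hq => ?_, fun i => ?_, fun q hq => ?_⟩, fun i => ?_⟩
  · unfold Pool.Agent.R413.SQ.mk
    rw [if_pos (Or.inl (hf7 i))]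
  · show nr (n + h i) (n + h j) = _
    rcases lt_trichotomy i j with hij | hij | hij
    · exact hlt i j hij
    · rw [hij, nr_self, if_neg G.irrefl]
    · rw [nr_symm (hpr i) (hf4 i) (hpr j) (by have := hf4 j; omega), hlt j i hij]
      simp only [G.adj_comm]
  · unfold Pool.Agent.R413.SQ.mk
    rw [hr4]
    norm_num
  · have h4 : (n + h i) % (n + h i) = 1 % (n + h i) := hfq i _ hi
    rw [Nat.mod_self, Nat.mod_eq_of_lt (hpr i).one_lt] at h4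
    omega
  · have h4 := hfr i
    have h5 : n + h i = r := hi
    rw [h5, nr_self] at h4
    exact absurd h4 (by decide)
  · show nr (n + h i) q = 0
    rw [nr_symm (hpr i) (hf4 i) (hT4 q hq).1 (by have := (hT4 q hq).2; omega)]
    exact nr_eq_zero_of (hfq i q hq)
  · show nr (n + h i) r = 1
    rw [nr_symm (hpr i) (hf4 i) hr (by omega)]
    exact hfr i
  · exact nr_eq_zero_of (hrq q hq)
  · exact (hmod i).of_dvd (Dvd.intro (∏ q ∈ T', q) (by ring))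

/-- the tuple has all the configurations -/
def AllCfg8 (N B : ℕ) (T : Finset ℕ) (q₁ r : ℕ) {m : ℕ} (h : Fin m → ℕ) : Prop :=
  ∀ G : SimpleGraph (Fin m), ∃ c : ZMod 2, ∀ Y : ℕ,
    {n : ℕ | CfgF G (fun i => n + h i) c (insert q₁ T) r ∧ (∀ i, n + h i ≡ 1 [MOD 56 * N]) ∧
      {p : ℕ | p.Prime ∧ |(p : ℤ) - n| ≤ Y}.ncard ≤ B}.Infinite

/-- **Configurations relative to a finite set of primes, for a positive proportion of the tuples.** -/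
theorem rel8 (m N : ℕ) (hN : 0 < N) (h7 : N.Coprime 7) (T : Finset ℕ) (hT : ∀ q ∈ T, Cl q) :
    ∃ q₁ r : ℕ, q₁.Prime ∧ q₁ % 8 = 5 ∧ q₁ % 7 = 3 ∧ q₁ ∉ T ∧ (∀ q ∈ T, q₁ ≡ 1 [MOD q]) ∧
      r.Prime ∧ r % 8 = 5 ∧ r % 7 = 3 ∧ ∃ B : ℕ, ∀ δ : ℝ, 0 < δ → ∃ c : ℝ, 0 < c ∧
      ∃ x₀ : ℕ, ∀ x : ℕ, x₀ ≤ x → ∀ V : Finset ℕ, (∀ v ∈ V, v ≤ x) → δ * x ≤ V.card →
        c * (x : ℝ) ^ m ≤
          ({h : Fin m → ℕ | StrictMono h ∧ (∀ i, h i ∈ V) ∧ AllCfg8 N B T q₁ r h}.ncard : ℝ) := by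
  obtain ⟨q₁, r, c₀, hq, hq1, hq2, hq3, hq4, hr, hr1, hr2, hc, H⟩ := exists_aux8 N hN h7 T hT
  have hL : 0 < 7 * (8 * N * ∏ q ∈ insert q₁ T, q) * r := by
    have hP : 0 < ∏ q ∈ insert q₁ T, q := by
      rw [Finset.prod_insert hq3]
      exact Nat.mul_pos hq.pos (cop_of hT).2.2
    have := hr.pos
    positivity
  obtain ⟨B, hB⟩ := Pool.Agent.U974.PP.mainC (C := ZMod 2) Pool.Agent.Y698.SG.n4 m
    (7 * (8 * N * ∏ q ∈ insert q₁ T, q) * r) hL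
  refine ⟨q₁, r, hq, hq1, hq2, hq3, hq4, hr, hr1, hr2, B, fun δ hδ => ?_⟩
  obtain ⟨c, hc0, x₀, hx⟩ := hB δ hδ
  refine ⟨c, hc0, x₀, fun x hxx V hV hVc => (hx x hxx V hV hVc).trans ?_⟩
  have hfin : {h : Fin m → ℕ | StrictMono h ∧ (∀ i, h i ∈ V) ∧ AllCfg8 N B T q₁ r h}.Finite := by
    refine (Fintype.piFinset (fun _ : Fin m => V)).finite_toSet.subset ?_
    rintro h ⟨-, h2, -⟩
    rw [mem_coe, Fintype.mem_piFinset]
    exact h2
  have h1 : {h : Fin m → ℕ | StrictMono h ∧ (∀ i, h i ∈ V) ∧ Pool.Agent.U974.PP.GoodC Pool.Agent.Y698.SG.n4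
      (7 * (8 * N * ∏ q ∈ insert q₁ T, q) * r) B h} ⊆
      {h : Fin m → ℕ | StrictMono h ∧ (∀ i, h i ∈ V) ∧ AllCfg8 N B T q₁ r h} := by
    rintro h ⟨g1, g2, g3⟩
    refine ⟨g1, g2, fun G => ?_⟩
    obtain ⟨c, hc'⟩ := g3 (sgn G) (sgn_or G) c₀ hc
    refine ⟨c, fun Y => (hc' Y).mono ?_⟩
    rintro n ⟨k1, k2, k3⟩
    obtain ⟨k4, k5⟩ := H m G c h n g1 k1 k2
    exact ⟨k4, k5, k3⟩
  exact_mod_cast Set.ncard_le_ncard h1 hfin

end Pool.Agent.U974.AW
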