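import Mathlib
import Pool.Agent.U974.AW.Pair
import Pool.Agent.U974.TW.Fld4
import Pool.Agent.Results.MP_787500_nt.AllWeightsMultiquadraticX49

/-! # Products of primes of the class and the good pairs -/

set_option autoImplicit false

open scoped Classical
open scoped symmDiff

namespace Pool.Agent.U974.AW

open Pool.Agent.R413.SQ (Gd)
open Pool.Agent.Y698.SG (n4)
open Pool.Agent.U120.MF (TT tt_gd)
open Pool.Agent.U974.TW
open Pool.Agent.Results.MP_787500_nt.AllWeightsMultiquadraticX49 (Adm RankZeroShaTwo Good)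

theorem sqf_prod {Q : Finset ℕ} (hQ : ∀ q ∈ Q, q.Prime) : Squarefree (∏ q ∈ Q, q) := by
  refine Finset.squarefree_prod_of_pairwise_isCoprime (fun p hp q hq hpq => ?_) fun p hp =>
    (hQ p hp).squarefree
  show IsRelPrime p q
  rw [← Nat.coprime_iff_isRelPrime]
  exact (Nat.coprime_primes (hQ p hp) (hQ q hq)).mpr hpq

theorem mem_of_dvd {Q : Finset ℕ} (hQ : ∀ q ∈ Q, q.Prime) {p : ℕ} (hp : p.Prime) (h : p ∣ ∏ q ∈ Q, q) :
    p ∈ Q := by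
  obtain ⟨q, hq, hpq⟩ := (hp.prime.dvd_finsetProd_iff _).1 h
  rw [(Nat.prime_dvd_prime_iff_eq hp (hQ q hq)).1 hpq]
  exact hq

theorem adm_of {Q : Finset ℕ} (hQ : ∀ q ∈ Q, Cl q) (h8 : (∏ q ∈ Q, q) % 8 = 1) : Adm (∏ q ∈ Q, q) := by
  refine ⟨sqf_prod fun q hq => (hQ q hq).1, h8, fun p hp h => ?_⟩
  exact (hQ p (mem_of_dvd (fun q hq => (hQ q hq).1) hp h)).2

theorem E_eq {D : ℕ} (h : D % 4 = 1) :
    Pool.Agent.Results.MP_787500_nt.AllWeightsMultiquadraticX49.E D =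
      Pool.Agent.Results.MP_4a9ea6_nt.TwoPartTwistsX49.E D := by
  obtain ⟨j, hj⟩ : ∃ j : ℕ, D = 1 + 4 * j := ⟨D / 4, by omega⟩
  have h1 : (3 * (D : ℤ) + 1) / 4 = 1 + 3 * j := by
    rw [hj]
    push_cast
    omega
  have h2 : (D : ℚ) = 1 + 4 * j := by rw [hj]; push_cast; ring
  unfold Pool.Agent.Results.MP_787500_nt.AllWeightsMultiquadraticX49.E
    Pool.Agent.Results.MP_4a9ea6_nt.TwoPartTwistsX49.E
    Pool.Agent.Results.MP_4a9ea6_nt.TwoPartTwistsX49.twist WeierstrassCurve.map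
  rw [h1]
  ext
  · simp
  · simp only [eq_intCast]
    push_cast
    rw [h2]
    ring
  · simp
  · simp
  · simp

theorem rz_tt {D : ℕ} (h4 : D % 4 = 1) : RankZeroShaTwo D ↔ TT D := by
  have h1 := Pool.Agent.R413.SQ.Cor.same h4
  unfold RankZeroShaTwo
  rw [E_eq h4]
  refine Iff.trans ?_ h1.symm
  simp only [two_nsmul]

theorem rz_gd {Q : Finset ℕ} (hQ : ∀ q ∈ Q, Cl q) (h8 : (∏ q ∈ Q, q) % 8 = 1) :
    RankZeroShaTwo (∏ q ∈ Q, q) ↔ Gd n4 Q := by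
  rw [rz_tt (by omega), tt_gd fun q hq => (hQ q hq).four]

/-- the product over the symmetric difference -/
theorem prod_symm (A B : Finset ℕ) :
    (∏ q ∈ A, q) * ∏ q ∈ B, q = (∏ q ∈ A ∆ B, q) * (∏ q ∈ A ∩ B, q) ^ 2 := by
  have hd : Disjoint (A \ B) (B \ A) := by
    rw [Finset.disjoint_left]
    intro x hx hy
    exact (Finset.mem_sdiff.1 hx).2 (Finset.mem_sdiff.1 hy).1
  have e1 : ∏ q ∈ A, q = (∏ q ∈ A \ B, q) * ∏ q ∈ A ∩ B, q := by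
    rw [← Finset.prod_union (Finset.disjoint_sdiff_inter _ _), Finset.sdiff_union_inter]
  have e2 : ∏ q ∈ B, q = (∏ q ∈ B \ A, q) * ∏ q ∈ A ∩ B, q := by
    rw [Finset.inter_comm, ← Finset.prod_union (Finset.disjoint_sdiff_inter _ _),
      Finset.sdiff_union_inter]
  have e3 : ∏ q ∈ A ∆ B, q = (∏ q ∈ A \ B, q) * ∏ q ∈ B \ A, q := by
    rw [← Finset.prod_union hd]
    rfl
  rw [e3, e1, e2]
  ring

theorem cl_odd {Q : Finset ℕ} (hQ : ∀ q ∈ Q, Cl q) : (∏ q ∈ Q, q) ^ 2 % 8 = 1 := by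
  have h : (∏ q ∈ Q, q) % 2 = 1 := by
    have h2 := (cop_of hQ).1
    rw [Nat.coprime_comm, Nat.Prime.coprime_iff_not_dvd Nat.prime_two] at h2
    omega
  generalize (∏ q ∈ Q, q) = x at *
  have hx : x % 8 = 1 ∨ x % 8 = 3 ∨ x % 8 = 5 ∨ x % 8 = 7 := by omega
  rw [Nat.pow_mod]
  rcases hx with h | h | h | h <;> rw [h]

theorem mod_symm {A B : Finset ℕ} (hA : ∀ q ∈ A, Cl q) (h1 : (∏ q ∈ A, q) % 8 = 1)
    (h2 : (∏ q ∈ B, q) % 8 = 1) : (∏ q ∈ A ∆ B, q) % 8 = 1 := by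
  have h3 : ((∏ q ∈ A, q) * ∏ q ∈ B, q) % 8 = ((∏ q ∈ A ∆ B, q) * (∏ q ∈ A ∩ B, q) ^ 2) % 8 := by
    rw [prod_symm]
  have h4 : (∏ q ∈ A ∩ B, q) ^ 2 % 8 = 1 := cl_odd fun q hq => hA q (Finset.mem_inter.1 hq).1
  rw [Nat.mul_mod, h1, h2, Nat.mul_mod (∏ q ∈ A ∆ B, q), h4] at h3
  omega

theorem cl_symm {A B : Finset ℕ} (hA : ∀ q ∈ A, Cl q) (hB : ∀ q ∈ B, Cl q) : ∀ q ∈ A ∆ B, Cl q := by
  intro q hq
  rcases Finset.mem_symmDiff.1 hq with h | h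
  · exact hA q h.1
  · exact hB q h.1

/-- products of products over sets -/
theorem prod_sets {J : Finset ℕ} (hJ : ∀ q ∈ J, Cl q) {n : ℕ} (W : Fin n → Finset ℕ)
    (hW : ∀ i, W i ⊆ J ∧ (∏ q ∈ W i, q) % 8 = 1) (I : Finset (Fin n)) :
    ∃ (V : Finset ℕ) (k : ℕ), V ⊆ J ∧ (∏ q ∈ V, q) % 8 = 1 ∧ k ≠ 0 ∧
      ∏ i ∈ I, ∏ q ∈ W i, q = (∏ q ∈ V, q) * k ^ 2 := by
  induction I using Finset.induction_on with
  | empty => exact ⟨∅, 1, Finset.empty_subset _, by simp, one_ne_zero, by simp⟩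
  | insert a I ha ih =>
    obtain ⟨V, k, hV, h8, hk, h⟩ := ih
    refine ⟨W a ∆ V, k * ∏ q ∈ W a ∩ V, q, symm_subT (hW a).1 hV,
      mod_symm (fun q hq => hJ q ((hW a).1 hq)) (hW a).2 h8, ?_, ?_⟩
    · refine mul_ne_zero hk (Finset.prod_ne_zero_iff.2 fun q hq => ?_)
      exact (hJ q (hV (Finset.mem_inter.1 hq).2)).1.ne_zero
    · rw [Finset.prod_insert ha, h, ← mul_assoc, prod_symm]
      ring

/-- the good pairs -/
theorem good_of {P J : Finset ℕ} (hP : ∀ q ∈ P, Cl q) (hJ : ∀ q ∈ J, Cl q) (h8 : (∏ q ∈ P, q) % 8 = 1)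
    (hG : ∀ V, V ⊆ J → (∏ q ∈ V, q) % 8 = 1 → Gd n4 (P ∆ V)) {n : ℕ} (W : Fin n → Finset ℕ)
    (hW : ∀ i, W i ⊆ J ∧ (∏ q ∈ W i, q) % 8 = 1) :
    Good (∏ q ∈ P, q) (fun i => ∏ q ∈ W i, q) := by
  intro I
  obtain ⟨V, k, hV, hV8, hk, h⟩ := prod_sets hJ W hW I
  have hcl := cl_symm hP fun q hq => hJ q (hV hq)
  have hm := mod_symm hP h8 hV8
  refine ⟨∏ q ∈ P ∆ V, q, (∏ q ∈ P ∩ V, q) * k, ?_, adm_of hcl hm, (rz_gd hcl hm).2 (hG V hV hV8), ?_⟩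
  · refine mul_ne_zero (Finset.prod_ne_zero_iff.2 fun q hq => ?_) hk
    exact (hP q (Finset.mem_inter.1 hq).1).1.ne_zero
  · rw [h, ← mul_assoc, prod_symm]
    ring

variable {m : ℕ} {G : SimpleGraph (Fin m)} {f : Fin m → ℕ} {c : ZMod 2} {T : Finset ℕ} {q₁ r : ℕ}

/-- the first auxiliary prime does not change the system -/
theorem gd_insert {U : Finset ℕ} (hU : q₁ ∉ U) (h4 : ∀ q ∈ U, q.Prime)
    (hi : Pool.Agent.R413.SQ.mk q₁ ≠ 1) (h1 : ∀ q ∈ U, q₁ ≡ 1 [MOD q]) :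
    Gd n4 (insert q₁ U) ↔ Gd n4 U := by
  have key : ∀ (x : ℕ → ZMod 2) (p : ℕ), p ∈ U →
      ∑ q ∈ insert q₁ U, Pool.Agent.Y703.CQ.nr p q * (Pool.Agent.R413.SQ.cu x q + x p) + n4 p * x p =
        ∑ q ∈ U, Pool.Agent.Y703.CQ.nr p q * (Pool.Agent.R413.SQ.cu x q + x p) + n4 p * x p := by
    intro x p hp
    rw [Finset.sum_insert hU, nr_eq_zero_of (h1 p hp), zero_mul, zero_add]
  constructor
  · intro h x hx p hp hp1
    refine h x (fun q hq hq1 => ?_) p (Finset.mem_insert_of_mem hp) hp1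
    rcases Finset.mem_insert.1 hq with h2 | h2
    · rw [h2] at hq1
      exact absurd hq1 hi
    · rw [key x q h2]
      exact hx q h2 hq1
  · intro h x hx p hp hp1
    rcases Finset.mem_insert.1 hp with h2 | h2
    · rw [h2] at hp1
      exact absurd hp1 hi
    · refine h x (fun q hq hq1 => ?_) p h2 hp1
      rw [← key x q hq]
      exact hx q (Finset.mem_insert_of_mem hq) hq1

end Pool.Agent.U974.AW
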