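import Mathlib
import Pool.Agent.U974.AW.Sets

/-! # The good pairs of a configuration -/

set_option autoImplicit false

open scoped Classical
open scoped symmDiff

namespace Pool.Agent.U974.AW

open Pool.Agent.R413.SQ (Gd)
open Pool.Agent.Y698.SG (n4)
open Pool.Agent.U120.MF (TT tt_gd)
open Pool.Agent.U974.TW
open Pool.Agent.Results.MP_787500_nt.AllWeightsMultiquadraticX49 (Adm RankZeroShaTwo Good)

/-- the data of a configuration with the pair of auxiliary primes -/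
structure C8 {m : ℕ} (G : SimpleGraph (Fin m)) (f : Fin m → ℕ) (c : ZMod 2) (T : Finset ℕ) (q₁ r : ℕ) :
    Prop where
  cfg : CfgF G f c (insert q₁ T) r
  one : ∀ i, f i % 56 = 1
  cl : ∀ q ∈ T, Cl q
  q1p : q₁.Prime
  q18 : q₁ % 8 = 5
  q17 : q₁ % 7 = 3
  q1T : q₁ ∉ T
  q1m : ∀ q ∈ T, q₁ ≡ 1 [MOD q]
  rp : r.Prime
  r8 : r % 8 = 5
  r7 : r % 7 = 3

variable {m : ℕ} {G : SimpleGraph (Fin m)} {f : Fin m → ℕ} {c : ZMod 2} {T : Finset ℕ} {q₁ r : ℕ}

/-- the subset of the extended set -/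
def up (q₁ : ℕ) (b : Bool) (U : Finset ℕ) : Finset ℕ := if b then insert q₁ U else U

theorem up_sub {U : Finset ℕ} (hU : U ⊆ T) (b : Bool) : up q₁ b U ⊆ insert q₁ T := by
  unfold up
  split_ifs
  · exact Finset.insert_subset_insert _ hU
  · exact hU.trans (Finset.subset_insert _ _)

theorem C8.gd (h : C8 G f c T q₁ r) {U : Finset ℕ} (hU : U ⊆ T) (b : Bool) (S : Finset (Fin m)) :
    Gd n4 (PP f r (up q₁ b U) b S) ↔ Gd n4 U ∧ Ker G (c + if b then 1 else 0) S := by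
  rw [h.cfg.gd (up_sub hU b)]
  refine and_congr_left fun _ => ?_
  unfold up
  cases b
  · simp
  · simp only [if_true]
    refine gd_insert (fun hq => h.q1T (hU hq)) (fun q hq => (h.cl q (hU hq)).1) ?_
      (fun q hq => h.q1m q (hU hq))
    unfold Pool.Agent.R413.SQ.mk
    rw [h.q17]
    norm_num

theorem C8.prod (h : C8 G f c T q₁ r) {U : Finset ℕ} (hU : U ⊆ T) (b : Bool) (S : Finset (Fin m)) :
    ∏ p ∈ PP f r (up q₁ b U) b S, p = (∏ p ∈ U, p) * ((if b then q₁ * r else 1) * ∏ i ∈ S, f i) := by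
  rw [h.cfg.prod (up_sub hU b)]
  unfold up
  cases b
  · simp
  · simp only [if_true]
    rw [Finset.prod_insert fun hq => h.q1T (hU hq)]
    ring

theorem C8.clq (h : C8 G f c T q₁ r) : Cl q₁ := ⟨h.q1p, Or.inr ⟨h.q18, Or.inl h.q17⟩⟩

theorem C8.clr (h : C8 G f c T q₁ r) : Cl r := ⟨h.rp, Or.inr ⟨h.r8, Or.inl h.r7⟩⟩

theorem C8.clf (h : C8 G f c T q₁ r) (i : Fin m) : Cl (f i) :=
  ⟨h.cfg.prime i, Or.inl ⟨by have := h.one i; omega, Or.inl (by have := h.one i; omega)⟩⟩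

theorem C8.clP (h : C8 G f c T q₁ r) {U : Finset ℕ} (hU : U ⊆ T) (b : Bool) (S : Finset (Fin m)) :
    ∀ p ∈ PP f r (up q₁ b U) b S, Cl p := by
  intro p hp
  rcases mem_PP.1 hp with h1 | h1 | ⟨i, _, rfl⟩
  · rcases Finset.mem_insert.1 (up_sub hU b h1) with h2 | h2
    · rw [h2]
      exact h.clq
    · exact h.cl p h2
  · rw [mem_exr h1]
    exact h.clr
  · exact h.clf i

theorem C8.prod_f (h : C8 G f c T q₁ r) (S : Finset (Fin m)) : (∏ i ∈ S, f i) % 8 = 1 := by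
  rw [Finset.prod_nat_mod, Finset.prod_congr rfl fun i _ => (show f i % 8 = 1 by have := h.one i; omega)]
  simp

theorem C8.eight (h : C8 G f c T q₁ r) {U : Finset ℕ} (hU : U ⊆ T) (h8 : (∏ q ∈ U, q) % 8 = 1) (b : Bool)
    (S : Finset (Fin m)) : (∏ p ∈ PP f r (up q₁ b U) b S, p) % 8 = 1 := by
  rw [h.prod hU, Nat.mul_mod, h8, Nat.mul_mod (if b then q₁ * r else 1), h.prod_f S]
  have h1 : (if b then q₁ * r else 1) % 8 = 1 := by
    cases b
    · simp
    · simp only [if_true]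
      rw [Nat.mul_mod, h.q18, h.r8]
  rw [h1]

/-- the twists over `ℚ` -/
theorem C8.rz (h : C8 G f c T q₁ r) {U : Finset ℕ} (hU : U ⊆ T) (h8 : (∏ q ∈ U, q) % 8 = 1) (b : Bool)
    (S : Finset (Fin m)) :
    RankZeroShaTwo ((∏ p ∈ U, p) * ((if b then q₁ * r else 1) * ∏ i ∈ S, f i)) ↔
      RankZeroShaTwo (∏ p ∈ U, p) ∧ Ker G (c + if b then 1 else 0) S := by
  rw [← h.prod hU b S, rz_gd (h.clP hU b S) (h.eight hU h8 b S), h.gd hU,
    rz_gd (fun q hq => h.cl q (hU hq)) h8]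

theorem C8.adm (h : C8 G f c T q₁ r) {U : Finset ℕ} (hU : U ⊆ T) (h8 : (∏ q ∈ U, q) % 8 = 1) (b : Bool)
    (S : Finset (Fin m)) :
    Adm ((∏ p ∈ U, p) * ((if b then q₁ * r else 1) * ∏ i ∈ S, f i)) := by
  rw [← h.prod hU b S]
  exact adm_of (h.clP hU b S) (h.eight hU h8 b S)

theorem up_symm {U V : Finset ℕ} (hV : q₁ ∉ V) (b : Bool) : up q₁ b U ∆ V = up q₁ b (U ∆ V) := by
  unfold up
  split_ifs
  · ext p
    by_cases hp : p = q₁
    · subst hp
      simp [Finset.mem_symmDiff, hV]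
    · simp [Finset.mem_symmDiff, hp]
  · rfl

/-- the good pairs: fields generated by the roots of primes of `J` and of the configuration -/
theorem C8.good (h : C8 G f c T q₁ r) {U J : Finset ℕ} (hU : U ⊆ T) (h8 : (∏ q ∈ U, q) % 8 = 1)
    (hJ : J ⊆ T) (hUJ : ∀ V, V ⊆ J → (∏ q ∈ V, q) % 8 = 1 → RankZeroShaTwo (∏ p ∈ U ∆ V, p)) (b : Bool)
    (S : Finset (Fin m)) (S' : Finset (Fin m))
    (hS : ∀ X, X ⊆ S → Ker G (c + if b then 1 else 0) (S' ∆ X)) {n : ℕ} (W : Fin n → Finset ℕ)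
    (hW : ∀ i, W i ⊆ J ∪ S.image f ∧ (∏ q ∈ W i, q) % 8 = 1) :
    Good ((∏ p ∈ U, p) * ((if b then q₁ * r else 1) * ∏ i ∈ S', f i)) (fun i => ∏ q ∈ W i, q) := by
  rw [← h.prod hU b S']
  have hJcl : ∀ q ∈ J ∪ S.image f, Cl q := by
    intro q hq
    rcases Finset.mem_union.1 hq with h1 | h1
    · exact h.cl q (hJ h1)
    · obtain ⟨i, _, rfl⟩ := Finset.mem_image.1 h1
      exact h.clf i
  refine good_of (h.clP hU b S') hJcl (h.eight hU h8 b S') (fun V hV hV8 => ?_) W hW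
  have hJ' : J ⊆ insert q₁ T := hJ.trans (Finset.subset_insert _ _)
  have hVJ : V.filter (fun p => p ∈ J) ⊆ J := fun p hp => (Finset.mem_filter.1 hp).2
  have hq1 : q₁ ∉ V.filter (fun p => p ∈ J) := fun hq => h.q1T (hJ (hVJ hq))
  rw [h.cfg.symm2 (up_sub hU b) hJ' b V hV, up_symm hq1, h.gd (symm_subT hU (hVJ.trans hJ))]
  have h88 : (∏ q ∈ V.filter (fun p => p ∈ J), q) % 8 = 1 := by
    have h1 : (∏ q ∈ V.filter (fun p => p ∈ J), q) * ∏ q ∈ V.filter (fun p => ¬ p ∈ J), q =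
        ∏ q ∈ V, q := Finset.prod_filter_mul_prod_filter_not V _ _
    have h2 : (∏ q ∈ V.filter (fun p => ¬ p ∈ J), q) % 8 = 1 := by
      rw [Finset.prod_nat_mod, Finset.prod_congr rfl (g := fun _ => 1)]
      · simp
      · intro q hq
        obtain ⟨h3, h4⟩ := Finset.mem_filter.1 hq
        rcases Finset.mem_union.1 (hV h3) with h5 | h5
        · exact absurd h5 h4
        · obtain ⟨i, _, rfl⟩ := Finset.mem_image.1 h5
          have := h.one i
          omega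
    have h3 : ((∏ q ∈ V.filter (fun p => p ∈ J), q) * ∏ q ∈ V.filter (fun p => ¬ p ∈ J), q) % 8 =
        (∏ q ∈ V, q) % 8 := by rw [h1]
    rw [Nat.mul_mod, h2, hV8] at h3
    omega
  have hm := mod_symm (fun q hq => h.cl q (hU hq)) h8 h88
  refine ⟨(rz_gd (cl_symm (fun q hq => h.cl q (hU hq)) fun q hq => h.cl q (hJ (hVJ hq))) hm).1
    (hUJ _ hVJ h88), ?_⟩
  exact hS _ (Finset.filter_subset _ _)

end Pool.Agent.U974.AW
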