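import Mathlib
import Pool.Agent.U974.TW.Fld4

/-! # Fields generated by the square roots of the primes of the configuration, general form -/

set_option autoImplicit false

open scoped Classical

open WeierstrassCurve NumberField
open scoped symmDiff

namespace Pool.Agent.U974.AW

open Pool.Agent.TH841.NF.D (Sha)
open Pool.Agent.R413.SQ (Gd)
open Pool.Agent.Y698.SG (n4)
open Pool.Agent.U120.MF (P4 KT TT sub_KT tw_mem prod_adm tt_gd nz_of)
open Pool.Agent.U80.MQ (tc Om NZ tw fin_K lf_K exists_gens sha_K)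
open Pool.Agent.U974.TW

variable {m : ℕ} {G : SimpleGraph (Fin m)} {f : Fin m → ℕ} {c : ZMod 2} {T : Finset ℕ} {r : ℕ}

/-- the twist over the fields generated by the roots of primes of `J` and of the configuration -/
theorem field3 (h : CfgF G f c T r) {U J : Finset ℕ} (hU : U ⊆ T) (hJ : J ⊆ T)
    (hUJ : ∀ V, V ⊆ J → TT (∏ p ∈ U ∆ V, p)) (b : Bool) (S S' : Finset (Fin m))
    (hS : ∀ X, X ⊆ S → Ker G (c + if b then 1 else 0) (S' ∆ X))
    (K : IntermediateField ℚ ℂ) (hK : K ≤ KT ((J ∪ S.image f : Finset ℕ) : Set ℕ))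
    [NumberField K] (D : ℕ) (hD : D = (∏ p ∈ U, p) * ((if b then r else 1) * ∏ i ∈ S', f i)) :
    Finite (tc D K).toAffine.Point ∧
    (∃ G : ℂ → ℂ, Differentiable ℂ G ∧ (∀ s : ℂ, 3 / 2 < s.re →
      HasProd (Pool.Agent.U80.MQ.factor (K := K) (Pool.Agent.U80.MQ.A D)
        (Pool.Agent.U80.MQ.B D) s) (G s)) ∧ G 1 ≠ 0) ∧
    ∀ (k : ℕ) (x : Sha (tc D K)), (2 ^ k : ℕ) • x = 0 → Module.finrank ℚ K • x = 0 := by
  rw [hD, ← h.prod hU b S']
  refine fieldsJ (h.p4 hU b S') (fun p hp => ?_) (fun W hW => ?_) K hK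
  · rcases Finset.mem_union.1 hp with h1 | h1
    · exact h.tprime p (hJ h1)
    · obtain ⟨i, -, rfl⟩ := Finset.mem_image.1 h1
      exact ⟨h.prime i, h.four i⟩
  · rw [h.symm2 hU hJ b W hW]
    have hV : W.filter (fun p => p ∈ J) ⊆ J := fun p hp => (Finset.mem_filter.1 hp).2
    have h1 := symm_subT hU (hV.trans hJ)
    rw [h.gd h1]
    exact ⟨(tt_gd (fun p hp => h.tprime p (h1 hp))).1 (hUJ _ hV), hS _ (Finset.filter_subset _ _)⟩

end Pool.Agent.U974.AW
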