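import Mathlib
import Pool.Agent.U974.AW.Cfg8
import Pool.Agent.U974.AW.Fld5
import Pool.Agent.Y667.BKP.Main
import Pool.Agent.Results.MP_6e2fc3_nt.CMFormsAllWeights

/-! # The forms of all weights and the formula in weight two over the fields of prime tuples (proof) -/

set_option autoImplicit false

open scoped Classical

open WeierstrassCurve NumberField IsDedekindDomain
open scoped symmDiff

namespace Pool.Agent.U974.AW.Fm8

open Pool.Agent.TH841.NF.D (Sha)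
open Pool.Agent.Y667.BKP (H1f)

open Pool.Agent.Results.MP_787500_nt.AllWeightsMultiquadraticX49 (RankZeroShaTwo)
open Pool.Agent.Results.MP_6e2fc3_nt.CMFormsAllWeights (AllForms)

/-- the coefficient of `x` -/
def A (D : ℕ) : ℤ := -35 * (D : ℤ) ^ 2

/-- the constant coefficient -/
def B (D : ℕ) : ℤ := -98 * (D : ℤ) ^ 3

/-- the curve `y² = x³ - 35 D² x - 98 D³` over `K` -/
def curve (D : ℕ) (K : Type) [Field K] : WeierstrassCurve K :=
  { a₁ := 0, a₂ := 0, a₃ := 0, a₄ := ((A D : ℤ) : K), a₆ := ((B D : ℤ) : K) }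

/-- the eigenvalue `t_v = q_v - #{(x, y) ∈ k_v² : y² = x³ - 35 D² x - 98 D³}` at `v` -/
noncomputable def eigenvalue {K : Type} [Field K] [NumberField K] (D : ℕ)
    (v : HeightOneSpectrum (𝓞 K)) : ℤ :=
  ((Ideal.absNorm v.asIdeal : ℕ) : ℤ) -
    ((Nat.card {x : (𝓞 K ⧸ v.asIdeal) × (𝓞 K ⧸ v.asIdeal) //
      x.2 ^ 2 = x.1 ^ 3 + (A D : 𝓞 K ⧸ v.asIdeal) * x.1 + (B D : 𝓞 K ⧸ v.asIdeal)} : ℕ) : ℤ)

/-- the Euler factor `(1 - t_v q_v^(-s-1) + q_v^(-2s-1))⁻¹` of `L(g, s)` at `v`; it is left out at the finitely many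
places that divide `14 D` -/
noncomputable def factor {K : Type} [Field K] [NumberField K] (D : ℕ) (s : ℂ)
    (v : HeightOneSpectrum (𝓞 K)) : ℂ :=
  if ((14 * D : ℕ) : 𝓞 K) ∈ v.asIdeal then 1 else
    (1 - ((eigenvalue D v : ℤ) : ℂ) * ((Ideal.absNorm v.asIdeal : ℕ) : ℂ) ^ (-s - 1)
      + ((Ideal.absNorm v.asIdeal : ℕ) : ℂ) ^ (-2 * s - 1))⁻¹

/-- The Bloch–Kato formula for the Hilbert modular newform of `E_D` over the totally real field `K` and `λ = 2`, both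
sides being zero: `L(g, s)` is entire with order of vanishing zero at the centre `s = 0`, and the Bloch–Kato Selmer
group `H¹_f(K, V_2 E_D)` is zero; more precisely `E_D(K)` is finite and the elements of `Ш(E_D/K)` of order a power
of two are killed by `[K : ℚ]`. -/
def RankFormula (D : ℕ) (K : Type) [Field K] [NumberField K] : Prop :=
  IsTotallyReal K ∧
  (∃ L : ℂ → ℂ, Differentiable ℂ L ∧
    (∀ s : ℂ, (1 : ℝ) / 2 < s.re → HasProd (factor (K := K) D s) (L s)) ∧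
    analyticOrderAt L 0 = 0 ∧ L 0 ≠ 0) ∧
  (∀ x : H1f 2 (curve D K), x = 0) ∧
  Finite (curve D K).toAffine.Point ∧
  ∀ (k : ℕ) (x : Sha (curve D K)), 2 ^ k • x = 0 → Module.finrank ℚ K • x = 0

/-- the field generated by the square roots of the elements of `J` -/
noncomputable def Roots (J : Finset ℕ) : IntermediateField ℚ ℂ :=
  IntermediateField.adjoin ℚ {z : ℂ | ∃ q ∈ J, z ^ 2 = (q : ℂ)}

/-- the primes which are `1 mod 8` and split in `ℚ(√-7)`, or `5 mod 8` and inert -/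
def InClass (p : ℕ) : Prop := p.Prime ∧ ((p % 8 = 1 ∧ (p % 7 = 1 ∨ p % 7 = 2 ∨ p % 7 = 4)) ∨
  (p % 8 = 5 ∧ (p % 7 = 3 ∨ p % 7 = 5 ∨ p % 7 = 6)))

/-- the product of the set is `1 mod 8` -/
def One (U : Finset ℕ) : Prop := (∏ q ∈ U, q) % 8 = 1

/-- the determinant of the matrix `1 + Laplacian` of the subgraph of `G` induced on `S` is odd -/
def OddForests {m : ℕ} (G : SimpleGraph (Fin m)) (S : Finset (Fin m)) : Prop :=
  ((1 : Matrix (S : Set (Fin m)) (S : Set (Fin m)) (ZMod 2)) +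
    (G.induce (S : Set (Fin m))).lapMatrix (ZMod 2)).det ≠ 0

/-- the determinants are odd for all the sets `S' ∆ X`, `X ⊆ S` -/
def AllOdd {m : ℕ} (G : SimpleGraph (Fin m)) (S S' : Finset (Fin m)) : Prop :=
  ∀ X, X ⊆ S → OddForests G (S' ∆ X)

/-- every vertex of `S` has at most one neighbour in `S` -/
def Matching {m : ℕ} (G : SimpleGraph (Fin m)) (S : Finset (Fin m)) : Prop :=
  ∀ i ∈ S, ∀ j ∈ S, ∀ k ∈ S, G.Adj i j → G.Adj i k → j = k

/-- the sets `U ⊆ T` with product `1 mod 8` such that `E_M(ℚ)` is finite and `Ш(E_M/ℚ)[2] = 0` for all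
`M = ∏ (U ∆ V)`, `V ⊆ J` with product `1 mod 8` -/
def Base (T J : Finset ℕ) : Set (Finset ℕ) :=
  {U | U ⊆ T ∧ One U ∧ ∀ V, V ⊆ J → One V → RankZeroShaTwo (∏ q ∈ U ∆ V, q)}

/-- the property of the tuple `h`: for every graph `G` there is `d ∈ {1, q r}` such that for infinitely many `n` the
numbers `n + h i` are primes, `1` modulo `56 N`, with at most `B` primes at distance at most `Y` from `n` (for every
`Y`), and the Selmer groups are zero for all the forms and fields described above, and the formula holds in weight `2` -/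
def AllFields (T : Finset ℕ) (N q r B : ℕ) {m : ℕ} (h : Fin m → ℕ) : Prop :=
  ∀ G : SimpleGraph (Fin m), ∃ d : ℕ, (d = 1 ∨ d = q * r) ∧ ∀ Y : ℕ,
    {n : ℕ | (∀ i, (n + h i).Prime ∧ n + h i ≡ 1 [MOD 56 * N]) ∧
      {p : ℕ | p.Prime ∧ |(p : ℤ) - n| ≤ Y}.ncard ≤ B ∧
      ∀ J : Finset ℕ, J ⊆ T → ∀ U ∈ Base T J, ∀ S S' : Finset (Fin m), AllOdd G S S' →
        (∀ (l : ℕ) (W : Fin l → Finset ℕ), (∀ j, W j ⊆ J ∪ S.image (fun i => n + h i) ∧ One (W j)) →
          AllForms ((∏ q ∈ U, q) * (d * ∏ i ∈ S', (n + h i))) (fun j => ∏ q ∈ W j, q)) ∧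
        ((∀ V, V ⊆ J → RankZeroShaTwo (∏ q ∈ U ∆ V, q)) →
          ∀ K : IntermediateField ℚ ℂ, K ≤ Roots (J ∪ S.image (fun i => n + h i)) → ∃ _ : NumberField K,
            RankFormula ((∏ q ∈ U, q) * (d * ∏ i ∈ S', (n + h i))) K)}.Infinite

section proof

open Pool.Agent.U974.TW

theorem real_of {K : Type} [Field K] [NumberField K] {n : ℕ} {m : Fin n → ℕ} (r : Fin n → K)
    (hr : ∀ i, r i ^ 2 = (m i : K)) (htop : IntermediateField.adjoin ℚ (Set.range r) = ⊤) :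
    IsTotallyReal K := by
  refine ⟨fun v => ?_⟩
  rw [InfinitePlace.isReal_iff, ComplexEmbedding.isReal_iff]
  have h1 : ∀ x : K, x ∈ IntermediateField.adjoin ℚ (Set.range r) →
      (starRingEnd ℂ) (v.embedding x) = v.embedding x := by
    intro x hx
    induction hx using IntermediateField.adjoin_induction with
    | mem x hx =>
      obtain ⟨i, rfl⟩ := hx
      have h2 : v.embedding (r i) ^ 2 = (m i : ℂ) := by
        rw [← map_pow, hr i, map_natCast]
      have h3 : (((Real.sqrt (m i) : ℝ) : ℂ)) ^ 2 = (m i : ℂ) := by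
        rw [← Complex.ofReal_pow, Real.sq_sqrt (Nat.cast_nonneg _), Complex.ofReal_natCast]
      rcases sq_eq_sq_iff_eq_or_eq_neg.1 (h2.trans h3.symm) with h | h
      · rw [h, Complex.conj_ofReal]
      · rw [h, map_neg, Complex.conj_ofReal]
    | algebraMap q => simp
    | add x y _ _ hx hy => rw [map_add, map_add, hx, hy]
    | inv x _ hx => rw [map_inv₀, map_inv₀, hx]
    | mul x y _ _ hx hy => rw [map_mul, map_mul, hx, hy]
  ext x
  rw [ComplexEmbedding.conjugate_coe_eq]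
  exact h1 x (by rw [htop]; trivial)

theorem isReal {J : Finset ℕ} (K : IntermediateField ℚ ℂ) [NumberField K] (hK : K ≤ Roots J) :
    IsTotallyReal K ∧ ∃ n, Module.finrank ℚ K = 2 ^ n := by
  obtain ⟨n, S, r, _, _, hr, htop, h⟩ := Pool.Agent.U80.MQ.exists_gens K hK
  exact ⟨real_of (m := fun i => ∏ q ∈ S i, q) r hr htop, n, h⟩

theorem numberField {J : Finset ℕ} (K : IntermediateField ℚ ℂ) (hK : K ≤ Roots J) : NumberField K := by
  obtain ⟨n, _, _, _, _, _, _, h⟩ := Pool.Agent.U80.MQ.exists_gens K hK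
  exact { to_charZero := inferInstance
          to_finiteDimensional := Module.finite_of_finrank_pos (by rw [h]; positivity) }

/-- the places dividing `2 (4 A³ + 27 B²)` are those dividing `14 D` -/
theorem mem_iff {K : Type} [Field K] [NumberField K] (D : ℕ) (v : HeightOneSpectrum (𝓞 K)) :
    ((2 * (4 * A D ^ 3 + 27 * B D ^ 2) : ℤ) : 𝓞 K) ∈ v.asIdeal ↔ ((14 * D : ℕ) : 𝓞 K) ∈ v.asIdeal := by
  have e : ((2 * (4 * A D ^ 3 + 27 * B D ^ 2) : ℤ) : 𝓞 K) = (2 : 𝓞 K) ^ 9 * (7 : 𝓞 K) ^ 3 * (D : 𝓞 K) ^ 6 := by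
    have : (2 * (4 * A D ^ 3 + 27 * B D ^ 2) : ℤ) = 2 ^ 9 * 7 ^ 3 * (D : ℤ) ^ 6 := by
      unfold A B
      ring
    rw [this]
    push_cast
    ring
  have e' : ((14 * D : ℕ) : 𝓞 K) = 2 * 7 * (D : 𝓞 K) := by
    push_cast
    norm_num
  rw [e, e']
  have hp := v.isPrime
  constructor
  · intro h
    rcases hp.mem_or_mem h with h1 | h1
    · rcases hp.mem_or_mem h1 with h2 | h2
      · have := hp.mem_of_pow_mem _ h2
        exact Ideal.mul_mem_right _ _ (Ideal.mul_mem_right _ _ this)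
      · have := hp.mem_of_pow_mem _ h2
        exact Ideal.mul_mem_right _ _ (Ideal.mul_mem_left _ _ this)
    · have := hp.mem_of_pow_mem _ h1
      exact Ideal.mul_mem_left _ _ this
  · intro h
    rcases hp.mem_or_mem h with h1 | h1
    · rcases hp.mem_or_mem h1 with h2 | h2
      · exact Ideal.mul_mem_right _ _ (Ideal.mul_mem_right _ _ (Ideal.pow_mem_of_mem _ h2 9 (by norm_num)))
      · exact Ideal.mul_mem_right _ _ (Ideal.mul_mem_left _ _ (Ideal.pow_mem_of_mem _ h2 3 (by norm_num)))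
    · exact Ideal.mul_mem_left _ _ (Ideal.pow_mem_of_mem _ h1 6 (by norm_num))

theorem factor_eq {K : Type} [Field K] [NumberField K] (D : ℕ) (s : ℂ) (v : HeightOneSpectrum (𝓞 K)) :
    factor (K := K) D s v =
      Pool.Agent.U80.MQ.factor (K := K) (Pool.Agent.U80.MQ.A D) (Pool.Agent.U80.MQ.B D) (s + 1) v := by
  unfold factor Pool.Agent.U80.MQ.factor
  have e1 : (-(s + 1) : ℂ) = -s - 1 := by ring
  have e2 : (1 - 2 * (s + 1) : ℂ) = -2 * s - 1 := by ring
  have e3 : ((2 * (4 * Pool.Agent.U80.MQ.A D ^ 3 + 27 * Pool.Agent.U80.MQ.B D ^ 2) : ℤ) : 𝓞 K) ∈ v.asIdeal ↔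
      ((14 * D : ℕ) : 𝓞 K) ∈ v.asIdeal := mem_iff D v
  rw [e1, e2]
  by_cases h : ((14 * D : ℕ) : 𝓞 K) ∈ v.asIdeal
  · rw [if_pos h, if_pos (e3.2 h)]
  · rw [if_neg h, if_neg (fun h' => h (e3.1 h'))]
    rfl

theorem formula_of {D : ℕ} {J : Finset ℕ} (K : IntermediateField ℚ ℂ) [NumberField K] (hK : K ≤ Roots J)
    (h : Finite (Pool.Agent.U80.MQ.tc D K).toAffine.Point ∧
      (∃ G : ℂ → ℂ, Differentiable ℂ G ∧ (∀ s : ℂ, 3 / 2 < s.re →
        HasProd (Pool.Agent.U80.MQ.factor (K := K) (Pool.Agent.U80.MQ.A D)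
          (Pool.Agent.U80.MQ.B D) s) (G s)) ∧ G 1 ≠ 0) ∧
      ∀ (k : ℕ) (x : Sha (Pool.Agent.U80.MQ.tc D K)), (2 ^ k : ℕ) • x = 0 → Module.finrank ℚ K • x = 0) :
    RankFormula D K := by
  obtain ⟨h1, ⟨G, g1, g2, g3⟩, h3⟩ := h
  obtain ⟨hr, n, hn⟩ := isReal K hK
  have hs : ∀ (k : ℕ) (x : Sha (curve D K)), 2 ^ k • x = 0 → Module.finrank ℚ K • x = 0 :=
    fun k x hx => h3 k x hx
  refine ⟨hr, ⟨fun s => G (s + 1), ?_, fun s hs' => ?_, ?_, ?_⟩, ?_, h1, hs⟩
  · exact g1.comp (differentiable_id.add_const 1)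
  · have h4 := g2 (s + 1) (by
      rw [Complex.add_re, Complex.one_re]
      linarith)
    have e : factor (K := K) D s = Pool.Agent.U80.MQ.factor (K := K) (Pool.Agent.U80.MQ.A D)
        (Pool.Agent.U80.MQ.B D) (s + 1) := by
      funext v
      exact factor_eq D s v
    rw [e]
    exact h4
  · have hd : Differentiable ℂ fun s => G (s + 1) := g1.comp (differentiable_id.add_const 1)
    refine (hd.analyticAt 0).analyticOrderAt_eq_zero.2 ?_
    rw [zero_add]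
    exact g3
  · show G (0 + 1) ≠ 0
    rw [zero_add]
    exact g3
  · refine Pool.Agent.Y667.BKP.h1f_zero Nat.prime_two h1 n fun k x hx => ?_
    have h5 := h3 k x hx
    rw [hn] at h5
    exact h5

/-- the twist over the fields generated by the roots of primes of `J` and of the configuration -/
theorem field8 {m : ℕ} {G : SimpleGraph (Fin m)} {f : Fin m → ℕ} {c : ZMod 2} {T : Finset ℕ} {q r : ℕ}
    (h : Pool.Agent.U974.AW.C8 G f c T q r) {U J : Finset ℕ} (hU : U ⊆ T) (hJ : J ⊆ T)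
    (hUJ : ∀ V, V ⊆ J → RankZeroShaTwo (∏ p ∈ U ∆ V, p)) (b : Bool) (S S' : Finset (Fin m))
    (hS : ∀ X, X ⊆ S → Ker G (c + if b then 1 else 0) (S' ∆ X))
    (K : IntermediateField ℚ ℂ) (hK : K ≤ Roots (J ∪ S.image f)) [NumberField K] :
    RankFormula ((∏ p ∈ U, p) * ((if b then q * r else 1) * ∏ i ∈ S', f i)) K := by
  refine formula_of K hK ?_
  refine Pool.Agent.U974.AW.field3 h.cfg (Pool.Agent.U974.AW.up_sub hU b)
    (hJ.trans (Finset.subset_insert _ _)) (fun V hV => ?_) b S S' hS K hK _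
    ((h.prod hU b S').symm.trans (h.cfg.prod (Pool.Agent.U974.AW.up_sub hU b) b S'))
  have hVT := hV.trans hJ
  have hqV : q ∉ V := fun hq => h.q1T (hVT hq)
  have hqUV : q ∉ U ∆ V := by
    intro hq
    rcases Finset.mem_symmDiff.1 hq with h1 | h1
    · exact h.q1T (hU h1.1)
    · exact hqV h1.1
  have hcl : ∀ p ∈ U ∆ V, Pool.Agent.U974.AW.Cl p :=
    Pool.Agent.U974.AW.cl_symm (fun p hp => h.cl p (hU hp)) fun p hp => h.cl p (hVT hp)
  have h4 : (∏ p ∈ U ∆ V, p) % 4 = 1 := by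
    rw [Finset.prod_nat_mod, Finset.prod_congr rfl (g := fun _ => 1) fun p hp => (hcl p hp).four.2]
    simp
  have hg : Pool.Agent.R413.SQ.Gd Pool.Agent.Y698.SG.n4 (U ∆ V) :=
    (Pool.Agent.U120.MF.tt_gd fun p hp => (hcl p hp).four).1
      ((Pool.Agent.U974.AW.rz_tt h4).1 (hUJ V hV))
  rw [Pool.Agent.U974.AW.up_symm hqV b]
  have hcl' : ∀ p ∈ Pool.Agent.U974.AW.up q b (U ∆ V), Pool.Agent.U974.AW.Cl p := by
    intro p hp
    unfold Pool.Agent.U974.AW.up at hp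
    split_ifs at hp
    · rcases Finset.mem_insert.1 hp with h1 | h1
      · rw [h1]
        exact h.clq
      · exact hcl p h1
    · exact hcl p hp
  refine (Pool.Agent.U120.MF.tt_gd fun p hp => (hcl' p hp).four).2 ?_
  unfold Pool.Agent.U974.AW.up
  split_ifs
  · refine (Pool.Agent.U974.AW.gd_insert hqUV (fun p hp => (hcl p hp).1) ?_ fun p hp => ?_).2 hg
    · unfold Pool.Agent.R413.SQ.mk
      rw [h.q17]
      norm_num
    · rcases Finset.mem_symmDiff.1 hp with h1 | h1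
      · exact h.q1m p (hU h1.1)
      · exact h.q1m p (hVT h1.1)
  · exact hg

theorem odd_iff {m : ℕ} (G : SimpleGraph (Fin m)) (S : Finset (Fin m)) : Ker G 1 S ↔ OddForests G S :=
  ker_iff G S

theorem allOdd_of {m : ℕ} {G : SimpleGraph (Fin m)} {S S' : Finset (Fin m)} (hS : Matching G S)
    (hS' : S' ⊆ S) : AllOdd G S S' := by
  intro X hX
  rw [← odd_iff]
  refine Match.ker (Match.mono (S := S) hS fun i hi => ?_)
  rcases Finset.mem_symmDiff.1 hi with h | h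
  · exact hS' h.1
  · exact hX h.1

/-- for sets of inert primes the conditions hold -/
theorem base_inert {T : Finset ℕ} (hT : ∀ q ∈ T, InClass q) {J U : Finset ℕ} (hJ : J ⊆ T) (hU : U ⊆ T)
    (h5 : ∀ q ∈ J ∪ U, q % 8 = 5) (hU8 : One U) : U ∈ Base T J := by
  refine ⟨hU, hU8, fun V hV hV8 => ?_⟩
  have hVT : V ⊆ T := hV.trans hJ
  have hcl : ∀ q ∈ U ∆ V, Pool.Agent.U974.AW.Cl q :=
    Pool.Agent.U974.AW.cl_symm (fun q hq => hT q (hU hq)) fun q hq => hT q (hVT hq)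
  refine (Pool.Agent.U974.AW.rz_gd hcl
    (Pool.Agent.U974.AW.mod_symm (fun q hq => hT q (hU hq)) hU8 hV8)).2 ?_
  intro x _ p hp hp1
  exfalso
  have h1 : p ∈ J ∪ U := by
    rcases Finset.mem_symmDiff.1 hp with h | h
    · exact Finset.mem_union_right _ h.1
    · exact Finset.mem_union_left _ (hV h.1)
  have h2 := h5 p h1
  have h3 := (hcl p hp).2
  unfold Pool.Agent.R413.SQ.mk at hp1
  rw [if_neg (by omega)] at hp1
  omega

end proof

/-- **The Bloch–Kato Selmer groups of the CM forms of all odd `k` over the fields of prime tuples.** -/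
theorem result (m N : ℕ) (hN : 0 < N) (h7 : N.Coprime 7) (T : Finset ℕ) (hT : ∀ q ∈ T, InClass q) :
    (∀ (G : SimpleGraph (Fin m)) (S S' : Finset (Fin m)), Matching G S → S' ⊆ S → AllOdd G S S') ∧
    (∀ J U : Finset ℕ, J ⊆ T → U ⊆ T → (∀ q ∈ J ∪ U, q % 8 = 5) → One U → U ∈ Base T J) ∧
    ∃ q r B : ℕ, q.Prime ∧ q % 8 = 5 ∧ q % 7 = 3 ∧ r.Prime ∧ r % 8 = 5 ∧ r % 7 = 3 ∧
      ∀ δ : ℝ, 0 < δ → ∃ c : ℝ, 0 < c ∧
      ∃ x₀ : ℕ, ∀ x : ℕ, x₀ ≤ x → ∀ W : Finset ℕ, (∀ w ∈ W, w ≤ x) → δ * x ≤ W.card →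
        c * (x : ℝ) ^ m ≤ ({h : Fin m → ℕ | StrictMono h ∧ (∀ i, h i ∈ W) ∧
          AllFields T N q r B h}.ncard : ℝ) := by
  refine ⟨fun G S S' => allOdd_of, fun J U hJ hU h5 h8 => base_inert hT hJ hU h5 h8, ?_⟩
  obtain ⟨q, r, hq, hq1, hq2, hq3, hq4, hr, hr1, hr2, B, hB⟩ := Pool.Agent.U974.AW.rel8 m N hN h7 T hT
  refine ⟨q, r, B, hq, hq1, hq2, hr, hr1, hr2, fun δ hδ => ?_⟩
  obtain ⟨c, hc, x₀, hx⟩ := hB δ hδ
  refine ⟨c, hc, x₀, fun x hxx W hW hWc => (hx x hxx W hW hWc).trans ?_⟩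
  have hfin : {h : Fin m → ℕ | StrictMono h ∧ (∀ i, h i ∈ W) ∧ AllFields T N q r B h}.Finite := by
    refine (Fintype.piFinset (fun _ : Fin m => W)).finite_toSet.subset ?_
    rintro h ⟨-, h2, -⟩
    rw [Finset.mem_coe, Fintype.mem_piFinset]
    exact h2
  have hsub : {h : Fin m → ℕ | StrictMono h ∧ (∀ i, h i ∈ W) ∧
      Pool.Agent.U974.AW.AllCfg8 N B T q r h} ⊆
      {h : Fin m → ℕ | StrictMono h ∧ (∀ i, h i ∈ W) ∧ AllFields T N q r B h} := by
    rintro h ⟨g1, g2, g3⟩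
    refine ⟨g1, g2, fun G => ?_⟩
    obtain ⟨c, hc⟩ := g3 G
    obtain ⟨β, hβ1, hβ2⟩ := Pool.Agent.U974.TW.exists_flip c
    refine ⟨if β then q * r else 1, ?_, fun Y => (hc Y).mono ?_⟩
    · cases β
      · exact Or.inl rfl
      · exact Or.inr rfl
    · rintro n ⟨k1, k2, k3⟩
      have h8 : Pool.Agent.U974.AW.C8 G (fun i => n + h i) c T q r :=
        ⟨k1, fun i => (k2 i).of_dvd (Nat.dvd_mul_right _ _), hT, hq, hq1, hq2, hq3, hq4, hr, hr1, hr2⟩
      refine ⟨fun i => ⟨k1.prime i, k2 i⟩, k3, ?_⟩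
      rintro J hJ U ⟨hU, hU8, hUJ⟩ S S' hS
      refine ⟨fun l V hV => ?_, fun hUJ' K hK => ?_⟩
      · refine Pool.Agent.Results.MP_6e2fc3_nt.CMFormsAllWeights.result.1 l _ _ ?_
        refine h8.good hU hU8 hJ hUJ β S S' (fun X hX => ?_) V hV
        rw [hβ1, odd_iff]
        exact hS X hX
      · have hnf : NumberField K := numberField K hK
        refine ⟨hnf, field8 h8 hU hJ hUJ' β S S' (fun X hX => ?_) K hK⟩
        rw [hβ1, odd_iff]
        exact hS X hX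
  exact_mod_cast Set.ncard_le_ncard hsub hfin

end Pool.Agent.U974.AW.Fm8
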